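import Pool.Agent.H902R3.XI.Stmts

set_option autoImplicit false

open Complex MeasureTheory Filter Topology Set Metric
open scoped Real ENNReal

namespace Pool.Agent.H2XI

/-- exponential -/
noncomputable def ex (μ x : ℝ) : ℂ := cexp (-I * x * μ)

theorem norm_ex (μ x : ℝ) : ‖ex μ x‖ = 1 := by
  unfold ex
  rw [Complex.norm_exp]
  simp

theorem cont_ex (μ : ℝ) : Continuous (ex μ) := by unfold ex; fun_prop

theorem ex_mul (μ ν x : ℝ) : ex μ x * ex ν x = ex (μ + ν) x := by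
  unfold ex
  rw [← Complex.exp_add]
  congr 1
  push_cast
  ring

theorem conj_ex (μ x : ℝ) : (starRingEnd ℂ) (ex μ x) = ex (-μ) x := by
  unfold ex
  rw [← Complex.exp_conj]
  congr 1
  simp

theorem ex_add (μ x y : ℝ) : ex μ (x + y) = ex μ x * ex μ y := by
  unfold ex
  rw [← Complex.exp_add]
  congr 1
  push_cast
  ring

theorem norm_int_ex (μ a b : ℝ) (hμ : μ ≠ 0) : ‖∫ x in a..b, ex μ x‖ ≤ 2 / |μ| := by
  have hc : (-I * μ : ℂ) ≠ 0 := by simp [hμ]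
  have h : ∀ x : ℝ, ex μ x = cexp ((-I * μ) * x) := by
    intro x; unfold ex; congr 1; ring
  simp_rw [h]
  rw [integral_exp_mul_complex hc, norm_div]
  have h1 : ‖(-I * μ : ℂ)‖ = |μ| := by simp
  rw [h1]
  have h2 : ∀ x : ℝ, ‖cexp ((-I * μ) * x)‖ = 1 := by
    intro x; rw [← h, norm_ex]
  have h3 : ‖cexp (-I * μ * b) - cexp (-I * μ * a)‖ ≤ 2 := by
    refine (norm_sub_le _ _).trans ?_
    rw [h2, h2]; norm_num
  gcongr

theorem norm_int_ex' (μ a b : ℝ) (hab : a ≤ b) : ‖∫ x in a..b, ex μ x‖ ≤ b - a := by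
  have h := intervalIntegral.norm_integral_le_of_norm_le_const (f := ex μ) (a := a) (b := b)
    (C := 1) (fun x _ => (norm_ex μ x).le)
  rwa [one_mul, abs_of_nonneg (by linarith)] at h

/-- square of the norm of an exponential sum -/
theorem sq_sum {ι : Type*} (s : Finset ι) (A : ι → ℂ) (lam : ι → ℝ) (x : ℝ) :
    ((‖∑ i ∈ s, A i * ex (lam i) x‖ ^ 2 : ℝ) : ℂ) =
      ∑ i ∈ s, ∑ j ∈ s, (A i * (starRingEnd ℂ) (A j)) * ex (lam i - lam j) x := by
  have h := Complex.mul_conj' (∑ i ∈ s, A i * ex (lam i) x)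
  push_cast
  rw [← h, map_sum, Finset.sum_mul_sum]
  refine Finset.sum_congr rfl fun i _ => Finset.sum_congr rfl fun j _ => ?_
  rw [map_mul, conj_ex, sub_eq_add_neg, ← ex_mul]
  ring

theorem mv {ι : Type*} [DecidableEq ι] (s : Finset ι) (A : ι → ℂ) (lam : ι → ℝ) (δ : ℝ)
    (hδ : 0 < δ) (hgap : ∀ i ∈ s, ∀ j ∈ s, i ≠ j → δ ≤ |lam i - lam j|) (x₀ H : ℝ) (hH : 0 < H) :
    ∫ x in x₀..(x₀ + H), ‖∑ i ∈ s, A i * ex (lam i) x‖ ^ 2 ≤
      (H + 2 * s.card / δ) * ∑ i ∈ s, ‖A i‖ ^ 2 := by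
  have h1 : ((∫ x in x₀..(x₀ + H), ‖∑ i ∈ s, A i * ex (lam i) x‖ ^ 2 : ℝ) : ℂ) =
      ∑ i ∈ s, ∑ j ∈ s, (A i * (starRingEnd ℂ) (A j)) *
        ∫ x in x₀..(x₀ + H), ex (lam i - lam j) x := by
    rw [← intervalIntegral.integral_ofReal]
    simp_rw [sq_sum]
    rw [intervalIntegral.integral_finsetSum]
    · refine Finset.sum_congr rfl fun i _ => ?_
      rw [intervalIntegral.integral_finsetSum]
      · refine Finset.sum_congr rfl fun j _ => ?_
        rw [intervalIntegral.integral_const_mul]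
      · intro j _
        exact (continuous_const.mul (cont_ex _)).intervalIntegrable _ _
    · intro i _
      exact (continuous_finsetSum _ fun j _ =>
        continuous_const.mul (cont_ex _)).intervalIntegrable _ _
  have h2 : ∫ x in x₀..(x₀ + H), ‖∑ i ∈ s, A i * ex (lam i) x‖ ^ 2 ≤
      ‖∑ i ∈ s, ∑ j ∈ s, (A i * (starRingEnd ℂ) (A j)) *
        ∫ x in x₀..(x₀ + H), ex (lam i - lam j) x‖ := by
    rw [← h1, Complex.norm_real]
    exact le_abs_self _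
  refine h2.trans ?_
  have h3 : ∀ i ∈ s, ∀ j ∈ s, ‖(A i * (starRingEnd ℂ) (A j)) *
        ∫ x in x₀..(x₀ + H), ex (lam i - lam j) x‖ ≤
      (if i = j then ‖A i‖ * ‖A j‖ * H else 0) + ‖A i‖ * ‖A j‖ * (2 / δ) := by
    intro i hi j hj
    rw [norm_mul, norm_mul, RCLike.norm_conj]
    by_cases hij : i = j
    · rw [if_pos hij]
      have h4 := norm_int_ex' (lam i - lam j) x₀ (x₀ + H) (by linarith)
      have h5 : ‖A i‖ * ‖A j‖ * ‖∫ x in x₀..(x₀ + H), ex (lam i - lam j) x‖ ≤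
          ‖A i‖ * ‖A j‖ * H := by
        refine mul_le_mul_of_nonneg_left (h4.trans (by linarith)) (by positivity)
      have h6 : 0 ≤ ‖A i‖ * ‖A j‖ * (2 / δ) := by positivity
      linarith
    · rw [if_neg hij, zero_add]
      have h4 := hgap i hi j hj hij
      have h5 : lam i - lam j ≠ 0 := by
        intro h; rw [h, abs_zero] at h4; linarith
      have h6 := norm_int_ex (lam i - lam j) x₀ (x₀ + H) h5
      refine mul_le_mul_of_nonneg_left (h6.trans ?_) (by positivity)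
      gcongr
  calc ‖∑ i ∈ s, ∑ j ∈ s, (A i * (starRingEnd ℂ) (A j)) *
        ∫ x in x₀..(x₀ + H), ex (lam i - lam j) x‖
      ≤ ∑ i ∈ s, ∑ j ∈ s, ((if i = j then ‖A i‖ * ‖A j‖ * H else 0) +
          ‖A i‖ * ‖A j‖ * (2 / δ)) := by
        refine (norm_sum_le _ _).trans (Finset.sum_le_sum fun i hi => ?_)
        exact (norm_sum_le _ _).trans (Finset.sum_le_sum fun j hj => h3 i hi j hj)
    _ = H * ∑ i ∈ s, ‖A i‖ ^ 2 + 2 / δ * (∑ i ∈ s, ‖A i‖) ^ 2 := by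
        simp_rw [Finset.sum_add_distrib]
        congr 1
        · rw [Finset.mul_sum]
          refine Finset.sum_congr rfl fun i hi => ?_
          rw [Finset.sum_ite_eq]
          rw [if_pos hi]; ring
        · rw [sq, Finset.sum_mul_sum, Finset.mul_sum]
          refine Finset.sum_congr rfl fun i _ => ?_
          rw [Finset.mul_sum]
          refine Finset.sum_congr rfl fun j _ => ?_
          ring
    _ ≤ H * ∑ i ∈ s, ‖A i‖ ^ 2 + 2 / δ * (s.card * ∑ i ∈ s, ‖A i‖ ^ 2) := by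
        have := sq_sum_le_card_mul_sum_sq (s := s) (f := fun i => ‖A i‖)
        gcongr
    _ = _ := by ring

/-- kernel -/
noncomputable def kk (w μ : ℝ) : ℂ := (w⁻¹ : ℝ) * ∫ u in (0 : ℝ)..w, ex μ u

theorem kk_le_one {w : ℝ} (hw : 0 < w) (μ : ℝ) : ‖kk w μ‖ ≤ 1 := by
  unfold kk
  rw [norm_mul, Complex.norm_real, Real.norm_of_nonneg (by positivity)]
  have h := norm_int_ex' μ 0 w hw.le
  rw [sub_zero] at h
  calc w⁻¹ * ‖∫ u in (0 : ℝ)..w, ex μ u‖ ≤ w⁻¹ * w := by gcongr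
    _ = 1 := by field_simp

theorem kk_le {w : ℝ} (hw : 0 < w) {μ : ℝ} (hμ : μ ≠ 0) : ‖kk w μ‖ ≤ 2 / (w * |μ|) := by
  unfold kk
  rw [norm_mul, Complex.norm_real, Real.norm_of_nonneg (by positivity)]
  have h := norm_int_ex μ 0 w hμ
  have h0 : 0 < |μ| := abs_pos.2 hμ
  calc w⁻¹ * ‖∫ u in (0 : ℝ)..w, ex μ u‖ ≤ w⁻¹ * (2 / |μ|) := by gcongr
    _ = 2 / (w * |μ|) := by field_simp

/-- frequency of a pair -/
noncomputable def fr (r : ℕ × ℕ) : ℝ := Real.log r.1 - Real.log r.2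

/-- reduced pair -/
def red (p : ℕ × ℕ) : ℕ × ℕ := (p.1 / Nat.gcd p.1 p.2, p.2 / Nat.gcd p.1 p.2)

/-- all pairs -/
def PK (K : ℕ) : Finset (ℕ × ℕ) := Finset.Icc 1 K ×ˢ Finset.Icc 1 K

/-- coprime pairs -/
def Lam (K : ℕ) : Finset (ℕ × ℕ) := (PK K).filter fun r => Nat.Coprime r.1 r.2

theorem mem_PK {K : ℕ} {p : ℕ × ℕ} : p ∈ PK K ↔ (1 ≤ p.1 ∧ p.1 ≤ K) ∧ (1 ≤ p.2 ∧ p.2 ≤ K) := by
  unfold PK
  rw [Finset.mem_product, Finset.mem_Icc, Finset.mem_Icc]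

theorem gcd_pos' {K : ℕ} {p : ℕ × ℕ} (hp : p ∈ PK K) : 0 < Nat.gcd p.1 p.2 :=
  Nat.gcd_pos_of_pos_left _ (mem_PK.1 hp).1.1

theorem red_fst {K : ℕ} {p : ℕ × ℕ} (_hp : p ∈ PK K) : Nat.gcd p.1 p.2 * (red p).1 = p.1 :=
  Nat.mul_div_cancel' (Nat.gcd_dvd_left _ _)

theorem red_snd {K : ℕ} {p : ℕ × ℕ} (_hp : p ∈ PK K) : Nat.gcd p.1 p.2 * (red p).2 = p.2 :=
  Nat.mul_div_cancel' (Nat.gcd_dvd_right _ _)

theorem red_mem {K : ℕ} {p : ℕ × ℕ} (hp : p ∈ PK K) : red p ∈ Lam K := by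
  have h := mem_PK.1 hp
  have hg := gcd_pos' hp
  have e1 := red_fst hp
  have e2 := red_snd hp
  unfold Lam
  rw [Finset.mem_filter, mem_PK]
  refine ⟨⟨⟨?_, ?_⟩, ⟨?_, ?_⟩⟩, ?_⟩
  · rcases Nat.eq_zero_or_pos (red p).1 with h0 | h0
    · rw [h0, mul_zero] at e1; omega
    · exact h0
  · exact (Nat.div_le_self _ _).trans h.1.2
  · rcases Nat.eq_zero_or_pos (red p).2 with h0 | h0
    · rw [h0, mul_zero] at e2; omega
    · exact h0
  · exact (Nat.div_le_self _ _).trans h.2.2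
  · exact Nat.coprime_div_gcd_div_gcd hg

theorem fr_red {K : ℕ} {p : ℕ × ℕ} (hp : p ∈ PK K) : fr (red p) = fr p := by
  have hg := gcd_pos' hp
  have e1 := red_fst hp
  have e2 := red_snd hp
  have hr := red_mem hp
  unfold Lam at hr
  rw [Finset.mem_filter, mem_PK] at hr
  obtain ⟨⟨⟨h1, -⟩, ⟨h2, -⟩⟩, -⟩ := hr
  have hg' : (0 : ℝ) < (Nat.gcd p.1 p.2 : ℕ) := by exact_mod_cast hg
  have h1' : (0 : ℝ) < ((red p).1 : ℕ) := by exact_mod_cast h1
  have h2' : (0 : ℝ) < ((red p).2 : ℕ) := by exact_mod_cast h2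
  have f1 : (p.1 : ℝ) = (Nat.gcd p.1 p.2 : ℕ) * ((red p).1 : ℕ) := by
    rw [← Nat.cast_mul, e1]
  have f2 : (p.2 : ℝ) = (Nat.gcd p.1 p.2 : ℕ) * ((red p).2 : ℕ) := by
    rw [← Nat.cast_mul, e2]
  have g1 : Real.log p.1 = Real.log (Nat.gcd p.1 p.2 : ℕ) + Real.log ((red p).1 : ℕ) := by
    rw [f1, Real.log_mul hg'.ne' h1'.ne']
  have g2 : Real.log p.2 = Real.log (Nat.gcd p.1 p.2 : ℕ) + Real.log ((red p).2 : ℕ) := by
    rw [f2, Real.log_mul hg'.ne' h2'.ne']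
  unfold fr
  rw [g1, g2]
  ring

/-- the coefficients -/
noncomputable def SS (c : ℕ → ℝ) (K : ℕ) (r : ℕ × ℕ) : ℝ :=
  ∑ p ∈ (PK K).filter (fun p => red p = r), c p.1 * c p.2

open Pool.Agent.H902R3.XI in
theorem Aw_eq (c : ℕ → ℝ) (K : ℕ) {w : ℝ} (_hw : 0 < w) (x : ℝ) :
    ((Aw c K w x : ℝ) : ℂ) = ∑ r ∈ Lam K, (((SS c K r : ℝ) : ℂ) * kk w (fr r)) * ex (fr r) x := by
  have h0 : ∀ y : ℝ, DP c K y = ∑ n ∈ Finset.Icc 1 K, (c n : ℂ) * ex (Real.log n) y := by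
    intro y; rfl
  have h1 : ∀ y : ℝ, ((‖DP c K y‖ ^ 2 : ℝ) : ℂ) =
      ∑ p ∈ PK K, ((c p.1 * c p.2 : ℝ) : ℂ) * ex (fr p) y := by
    intro y
    rw [h0, sq_sum, PK, Finset.sum_product]
    refine Finset.sum_congr rfl fun i _ => Finset.sum_congr rfl fun j _ => ?_
    rw [Complex.conj_ofReal]
    push_cast
    rfl
  have h2 : ((Aw c K w x : ℝ) : ℂ) =
      ∑ p ∈ PK K, ((c p.1 * c p.2 : ℝ) : ℂ) * ex (fr p) x * kk w (fr p) := by
    unfold Aw
    rw [Complex.ofReal_mul, ← intervalIntegral.integral_ofReal]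
    simp_rw [h1]
    rw [intervalIntegral.integral_finsetSum, Finset.mul_sum]
    · refine Finset.sum_congr rfl fun p _ => ?_
      simp_rw [ex_add, ← mul_assoc]
      rw [intervalIntegral.integral_const_mul]
      unfold kk
      push_cast
      ring
    · intro p _
      refine Continuous.intervalIntegrable ?_ _ _
      exact continuous_const.mul ((cont_ex _).comp (continuous_const.add continuous_id))
  rw [h2, ← Finset.sum_fiberwise_of_maps_to (g := red) (t := Lam K) (fun p hp => red_mem hp)]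
  refine Finset.sum_congr rfl fun r _ => ?_
  unfold SS
  rw [Complex.ofReal_sum, Finset.sum_mul, Finset.sum_mul]
  refine Finset.sum_congr rfl fun p hp => ?_
  rw [Finset.mem_filter] at hp
  rw [← fr_red hp.1, hp.2]
  ring

theorem SS_le (c : ℕ → ℝ) (K : ℕ) {D : ℝ}
    (hb : ∀ b : ℕ, 1 ≤ b →
      ∑ h ∈ (Finset.Icc 1 K).filter (fun h => h * b ≤ K), c (h * b) ^ 2 ≤ D / b)
    (r : ℕ × ℕ) (hr : r ∈ Lam K) : (SS c K r) ^ 2 ≤ D ^ 2 * (1 / (r.1 * r.2)) := by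
  classical
  unfold Lam at hr
  rw [Finset.mem_filter, mem_PK] at hr
  obtain ⟨⟨⟨h1, h1'⟩, ⟨h2, h2'⟩⟩, h3⟩ := hr
  set F := (PK K).filter (fun p => red p = r) with hF
  have hfst : ∀ p ∈ F, p.1 = Nat.gcd p.1 p.2 * r.1 := by
    intro p hp
    rw [hF, Finset.mem_filter] at hp
    have := red_fst hp.1
    rw [hp.2] at this
    exact this.symm
  have hsnd : ∀ p ∈ F, p.2 = Nat.gcd p.1 p.2 * r.2 := by
    intro p hp
    rw [hF, Finset.mem_filter] at hp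
    have := red_snd hp.1
    rw [hp.2] at this
    exact this.symm
  have hinj : Set.InjOn (fun p : ℕ × ℕ => Nat.gcd p.1 p.2) (F : Set (ℕ × ℕ)) := by
    intro p hp q hq h
    have h' : Nat.gcd p.1 p.2 = Nat.gcd q.1 q.2 := h
    refine Prod.ext ?_ ?_
    · rw [hfst p hp, hfst q hq, h']
    · rw [hsnd p hp, hsnd q hq, h']
  have hmem : ∀ p ∈ F, Nat.gcd p.1 p.2 ∈ Finset.Icc 1 K := by
    intro p hp
    have hp' := (Finset.mem_filter.1 hp).1
    rw [Finset.mem_Icc]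
    refine ⟨gcd_pos' hp', ?_⟩
    exact (Nat.gcd_le_left _ (mem_PK.1 hp').1.1).trans (mem_PK.1 hp').1.2
  have key : ∀ (b : ℕ), 1 ≤ b → ∀ f : ℕ × ℕ → ℕ, (∀ p ∈ F, f p = Nat.gcd p.1 p.2 * b) →
      (∀ p ∈ F, f p ≤ K) → ∑ p ∈ F, c (f p) ^ 2 ≤ D / b := by
    intro b hb1 f hf hfK
    refine le_trans ?_ (hb b hb1)
    have e1 : ∑ p ∈ F, c (f p) ^ 2 =
        ∑ h ∈ F.image (fun p : ℕ × ℕ => Nat.gcd p.1 p.2), c (h * b) ^ 2 := by
      rw [Finset.sum_image hinj]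
      exact Finset.sum_congr rfl fun p hp => by rw [hf p hp]
    rw [e1]
    refine Finset.sum_le_sum_of_subset_of_nonneg ?_ (fun _ _ _ => sq_nonneg _)
    intro h hh
    rw [Finset.mem_image] at hh
    obtain ⟨p, hp, rfl⟩ := hh
    rw [Finset.mem_filter]
    exact ⟨hmem p hp, by rw [← hf p hp]; exact hfK p hp⟩
  have k1 := key r.1 h1 Prod.fst hfst fun p hp => (mem_PK.1 (Finset.mem_filter.1 hp).1).1.2
  have k2 := key r.2 h2 Prod.snd hsnd fun p hp => (mem_PK.1 (Finset.mem_filter.1 hp).1).2.2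
  have hcs : (SS c K r) ^ 2 ≤ (∑ p ∈ F, c p.1 ^ 2) * ∑ p ∈ F, c p.2 ^ 2 := by
    unfold SS
    exact Finset.sum_mul_sq_le_sq_mul_sq _ _ _
  refine hcs.trans ?_
  have hn1 : 0 ≤ ∑ p ∈ F, c p.1 ^ 2 := Finset.sum_nonneg fun _ _ => sq_nonneg _
  have hn2 : 0 ≤ ∑ p ∈ F, c p.2 ^ 2 := Finset.sum_nonneg fun _ _ => sq_nonneg _
  calc (∑ p ∈ F, c p.1 ^ 2) * ∑ p ∈ F, c p.2 ^ 2 ≤ (D / r.1) * (D / r.2) :=
        mul_le_mul k1 k2 hn2 (hn1.trans k1)
    _ = D ^ 2 * (1 / (r.1 * r.2)) := by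
        have : (r.1 : ℝ) ≠ 0 := by positivity
        have : (r.2 : ℝ) ≠ 0 := by positivity
        field_simp

theorem log_gap {X Y : ℕ} (hX : 1 ≤ X) (hY : 1 ≤ Y) (hXY : X ≠ Y) {N : ℕ} (hXN : X ≤ N)
    (hYN : Y ≤ N) : 1 / (N : ℝ) ≤ |Real.log X - Real.log Y| := by
  wlog h : Y < X generalizing X Y
  · rw [abs_sub_comm]
    exact this hY hX hXY.symm hYN hXN (by omega)
  have hX0 : (0 : ℝ) < X := by exact_mod_cast hX
  have hY0 : (0 : ℝ) < Y := by exact_mod_cast hY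
  have hN0 : (0 : ℝ) < N := by exact_mod_cast (lt_of_lt_of_le hX hXN)
  have h1 : Real.log (Y / X) ≤ Y / X - 1 := Real.log_le_sub_one_of_pos (by positivity)
  rw [Real.log_div hY0.ne' hX0.ne'] at h1
  have h2 : 1 / (N : ℝ) ≤ 1 - Y / X := by
    have h3 : (Y : ℝ) + 1 ≤ X := by exact_mod_cast h
    have h4 : (1 : ℝ) - Y / X = (X - Y) / X := by field_simp
    rw [h4, div_le_div_iff₀ hN0 hX0]
    have h5 : (X : ℝ) ≤ N := by exact_mod_cast hXN
    nlinarith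
  exact (h2.trans (by linarith)).trans (le_abs_self _)

theorem fr_gap {K : ℕ} {r s : ℕ × ℕ} (hr : r ∈ Lam K) (hs : s ∈ Lam K) (hrs : r ≠ s) :
    1 / ((K : ℝ) ^ 2) ≤ |fr r - fr s| := by
  unfold Lam at hr hs
  rw [Finset.mem_filter, mem_PK] at hr hs
  obtain ⟨⟨⟨h1, h1'⟩, ⟨h2, h2'⟩⟩, h3⟩ := hr
  obtain ⟨⟨⟨g1, g1'⟩, ⟨g2, g2'⟩⟩, g3⟩ := hs
  have hne : r.1 * s.2 ≠ s.1 * r.2 := by
    intro h
    apply hrs
    have d1 : r.1 ∣ s.1 := h3.dvd_of_dvd_mul_right (Dvd.intro _ h)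
    have d2 : s.1 ∣ r.1 := g3.dvd_of_dvd_mul_right (Dvd.intro _ h.symm)
    have e1 : r.1 = s.1 := Nat.dvd_antisymm d1 d2
    refine Prod.ext e1 ?_
    rw [e1] at h
    exact (Nat.eq_of_mul_eq_mul_left g1 h).symm
  have h := log_gap (X := r.1 * s.2) (Y := s.1 * r.2) (Nat.mul_pos h1 g2) (Nat.mul_pos g1 h2)
    hne (N := K ^ 2) (by rw [sq]; exact Nat.mul_le_mul h1' g2')
    (by rw [sq]; exact Nat.mul_le_mul g1' h2')
  have e : Real.log ((r.1 * s.2 : ℕ) : ℝ) - Real.log ((s.1 * r.2 : ℕ) : ℝ) = fr r - fr s := by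
    have a1 : (r.1 : ℝ) ≠ 0 := by positivity
    have a2 : (r.2 : ℝ) ≠ 0 := by positivity
    have a3 : (s.1 : ℝ) ≠ 0 := by positivity
    have a4 : (s.2 : ℝ) ≠ 0 := by positivity
    unfold fr
    push_cast
    rw [Real.log_mul a1 a4, Real.log_mul a3 a2]
    ring
  rw [e] at h
  push_cast at h
  exact h

theorem tele {y : ℝ} (hy : 0 < y) (b : ℕ) :
    ∑ a ∈ Finset.range b, min 1 (y ^ 2 / ((b : ℝ) - a) ^ 2) ≤ 4 * y := by
  have h1 : ∀ a ∈ Finset.range b, min 1 (y ^ 2 / ((b : ℝ) - a) ^ 2) ≤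
      (fun a : ℕ => 4 * y ^ 2 / ((b : ℝ) - a + y)) (a + 1) -
        (fun a : ℕ => 4 * y ^ 2 / ((b : ℝ) - a + y)) a := by
    intro a ha
    rw [Finset.mem_range] at ha
    have hab : (a : ℝ) + 1 ≤ b := by exact_mod_cast ha
    set x : ℝ := (b : ℝ) - a with hx
    have hx1 : 1 ≤ x := by rw [hx]; linarith
    have e : (b : ℝ) - ((a + 1 : ℕ) : ℝ) + y = x - 1 + y := by rw [hx]; push_cast; ring
    show min 1 (y ^ 2 / x ^ 2) ≤ 4 * y ^ 2 / ((b : ℝ) - ((a + 1 : ℕ) : ℝ) + y) -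
      4 * y ^ 2 / (x + y)
    rw [e]
    have p1 : 0 < x - 1 + y := by linarith
    have p2 : 0 < x + y := by linarith
    have e2 : 4 * y ^ 2 / (x - 1 + y) - 4 * y ^ 2 / (x + y) =
        4 * y ^ 2 / ((x - 1 + y) * (x + y)) := by
      field_simp
      ring
    rw [e2]
    rcases le_total y x with h | h
    · refine (min_le_right _ _).trans ?_
      rw [div_le_div_iff₀ (by positivity) (by positivity)]
      have : (x - 1 + y) * (x + y) ≤ 4 * x ^ 2 := by nlinarith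
      nlinarith [sq_nonneg y]
    · refine (min_le_left _ _).trans ?_
      rw [le_div_iff₀ (by positivity), one_mul]
      nlinarith
  refine (Finset.sum_le_sum h1).trans ?_
  rw [Finset.sum_range_sub (fun a : ℕ => 4 * y ^ 2 / ((b : ℝ) - a + y))]
  have h2 : (0 : ℝ) ≤ 4 * y ^ 2 / ((b : ℝ) - (0 : ℕ) + y) := by
    have : (0 : ℝ) ≤ b := Nat.cast_nonneg b
    have h3 : (0 : ℝ) < (b : ℝ) - (0 : ℕ) + y := by push_cast; linarith
    positivity
  have h3 : 4 * y ^ 2 / ((b : ℝ) - (b : ℕ) + y) = 4 * y := by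
    rw [sub_self, zero_add]
    field_simp
  show 4 * y ^ 2 / ((b : ℝ) - (b : ℕ) + y) - 4 * y ^ 2 / ((b : ℝ) - (0 : ℕ) + y) ≤ 4 * y
  rw [h3]
  linarith

theorem harm (K : ℕ) : ∑ a ∈ Finset.Icc 1 K, (1 / (a : ℝ)) ≤ 1 + Real.log K := by
  have h := harmonic_le_one_add_log K
  rw [harmonic_eq_sum_Icc] at h
  push_cast at h
  simpa using h

/-- bound for the kernel -/
theorem kk_pair {w : ℝ} (hw : 0 < w) {a b : ℕ} (ha : 1 ≤ a) (hab : a < b) {μ : ℝ}
    (hμ : |μ| = Real.log b - Real.log a) :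
    ‖kk w μ‖ ^ 2 ≤ min 1 ((2 * b / w) ^ 2 / ((b : ℝ) - a) ^ 2) := by
  have ha0 : (0 : ℝ) < a := by exact_mod_cast ha
  have hb0 : (0 : ℝ) < b := by exact_mod_cast (lt_of_lt_of_le ha hab.le)
  have hab' : (a : ℝ) < b := by exact_mod_cast hab
  have h1 : Real.log (a / b) ≤ a / b - 1 := Real.log_le_sub_one_of_pos (by positivity)
  rw [Real.log_div ha0.ne' hb0.ne'] at h1
  have h2 : ((b : ℝ) - a) / b ≤ |μ| := by
    rw [hμ]
    have : ((b : ℝ) - a) / b = 1 - a / b := by field_simp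
    rw [this]; linarith
  have h3 : 0 < ((b : ℝ) - a) / b := by
    apply div_pos _ hb0
    linarith
  have hμ0 : μ ≠ 0 := by
    intro h
    rw [h, abs_zero] at h2
    linarith
  refine le_min ?_ ?_
  · have := kk_le_one hw μ
    have h0 := norm_nonneg (kk w μ)
    nlinarith
  · have h4 := kk_le hw hμ0
    have h5 : 2 / (w * |μ|) ≤ 2 / (w * (((b : ℝ) - a) / b)) := by gcongr
    have h6 : 2 / (w * (((b : ℝ) - a) / b)) = (2 * b / w) / ((b : ℝ) - a) := by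
      have : (b : ℝ) - a ≠ 0 := by linarith
      field_simp
    rw [← div_pow]
    have h7 := h4.trans (h5.trans h6.le)
    gcongr

/-- the majorant for a pair -/
noncomputable def Q (w : ℝ) (a b : ℕ) : ℝ :=
  2 / (b : ℝ) ^ 2 * min 1 ((2 * b / w) ^ 2 / ((b : ℝ) - a) ^ 2) + 16 / w ^ 2 * (1 / (a * b))

theorem Q_nonneg {w : ℝ} (a b : ℕ) : 0 ≤ Q w a b := by
  unfold Q
  positivity

theorem Q_le {w : ℝ} (hw : 0 < w) {a b : ℕ} (ha : 1 ≤ a) (hab : a < b) {μ : ℝ}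
    (hμ : |μ| = Real.log b - Real.log a) : ‖kk w μ‖ ^ 2 * (1 / (a * b)) ≤ Q w a b := by
  have ha0 : (0 : ℝ) < a := by exact_mod_cast ha
  have hb0 : (0 : ℝ) < b := by exact_mod_cast (lt_of_lt_of_le ha hab.le)
  have hab' : (a : ℝ) < b := by exact_mod_cast hab
  have h := kk_pair hw ha hab hμ
  unfold Q
  rcases le_total (b : ℝ) (2 * a) with h1 | h1
  · have h2 : 1 / ((a : ℝ) * b) ≤ 2 / (b : ℝ) ^ 2 := by
      rw [div_le_div_iff₀ (by positivity) (by positivity)]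
      nlinarith
    have h3 : ‖kk w μ‖ ^ 2 * (1 / (a * b)) ≤
        min 1 ((2 * b / w) ^ 2 / ((b : ℝ) - a) ^ 2) * (2 / (b : ℝ) ^ 2) := by
      gcongr
    have h4 : (0 : ℝ) ≤ 16 / w ^ 2 * (1 / (a * b)) := by positivity
    linarith
  · have h2 : ‖kk w μ‖ ^ 2 ≤ 16 / w ^ 2 := by
      refine (h.trans (min_le_right _ _)).trans ?_
      have h3 : (b : ℝ) / 2 ≤ (b : ℝ) - a := by linarith
      calc (2 * b / w) ^ 2 / ((b : ℝ) - a) ^ 2 ≤ (2 * b / w) ^ 2 / ((b : ℝ) / 2) ^ 2 := by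
            gcongr
        _ = 16 / w ^ 2 := by field_simp; norm_num
    have h3 : ‖kk w μ‖ ^ 2 * (1 / (a * b)) ≤ 16 / w ^ 2 * (1 / (a * b)) := by gcongr
    have h4 : (0 : ℝ) ≤ 2 / (b : ℝ) ^ 2 * min 1 ((2 * b / w) ^ 2 / ((b : ℝ) - a) ^ 2) := by
      positivity
    linarith

theorem sum_Q {w : ℝ} (hw : 0 < w) (K : ℕ) :
    ∑ b ∈ Finset.Icc 1 K, ∑ a ∈ Finset.Icc 1 K, (if a < b then Q w a b else 0) ≤
      16 * ((1 + Real.log K) / w) + 16 * ((1 + Real.log K) / w) ^ 2 := by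
  have hS0 : (0 : ℝ) ≤ ∑ a ∈ Finset.Icc 1 K, (1 / (a : ℝ)) :=
    Finset.sum_nonneg fun _ _ => by positivity
  have h1 : ∀ b ∈ Finset.Icc 1 K, ∑ a ∈ Finset.Icc 1 K, (if a < b then Q w a b else 0) ≤
      16 / w * (1 / (b : ℝ)) +
        16 / w ^ 2 * (1 / (b : ℝ)) * ∑ a ∈ Finset.Icc 1 K, (1 / (a : ℝ)) := by
    intro b hb
    rw [Finset.mem_Icc] at hb
    have hb0 : (0 : ℝ) < b := by exact_mod_cast hb.1
    have e1 : ∑ a ∈ Finset.Icc 1 K, (if a < b then Q w a b else 0) ≤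
        ∑ a ∈ Finset.Icc 1 K, ((if a < b then
          2 / (b : ℝ) ^ 2 * min 1 ((2 * b / w) ^ 2 / ((b : ℝ) - a) ^ 2) else 0) +
          16 / w ^ 2 * (1 / (b : ℝ)) * (1 / (a : ℝ))) := by
      refine Finset.sum_le_sum fun a ha => ?_
      have e2 : 16 / w ^ 2 * (1 / (b : ℝ)) * (1 / (a : ℝ)) = 16 / w ^ 2 * (1 / (a * b)) := by
        rw [one_div, one_div, one_div, mul_inv]; ring
      rw [e2]
      split_ifs
      · unfold Q; exact le_rfl
      · rw [zero_add]; positivity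
    refine e1.trans ?_
    rw [Finset.sum_add_distrib, ← Finset.mul_sum]
    gcongr
    rw [← Finset.sum_filter]
    have e3 : (Finset.Icc 1 K).filter (fun a => a < b) ⊆ Finset.range b := by
      intro a ha
      rw [Finset.mem_filter] at ha
      exact Finset.mem_range.2 ha.2
    have hy : 0 < 2 * (b : ℝ) / w := by positivity
    calc ∑ a ∈ (Finset.Icc 1 K).filter (fun a => a < b),
          2 / (b : ℝ) ^ 2 * min 1 ((2 * b / w) ^ 2 / ((b : ℝ) - a) ^ 2)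
        ≤ ∑ a ∈ Finset.range b, 2 / (b : ℝ) ^ 2 * min 1 ((2 * b / w) ^ 2 / ((b : ℝ) - a) ^ 2) :=
          Finset.sum_le_sum_of_subset_of_nonneg e3 fun _ _ _ => by positivity
      _ = 2 / (b : ℝ) ^ 2 * ∑ a ∈ Finset.range b, min 1 ((2 * b / w) ^ 2 / ((b : ℝ) - a) ^ 2) := by
          rw [Finset.mul_sum]
      _ ≤ 2 / (b : ℝ) ^ 2 * (4 * (2 * b / w)) := by
          have := tele hy b
          gcongr
      _ = 16 / w * (1 / (b : ℝ)) := by
          field_simp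
          norm_num
  refine (Finset.sum_le_sum h1).trans ?_
  rw [Finset.sum_add_distrib, ← Finset.mul_sum, ← Finset.sum_mul, ← Finset.mul_sum]
  have hH := harm K
  set S := ∑ a ∈ Finset.Icc 1 K, (1 / (a : ℝ)) with hS
  have h2 : 16 / w * S ≤ 16 / w * (1 + Real.log K) := by gcongr
  have h3 : 16 / w ^ 2 * S * S ≤ 16 / w ^ 2 * (1 + Real.log K) * (1 + Real.log K) := by
    have h4 : 0 ≤ 1 + Real.log K := hS0.trans hH
    gcongr
  calc 16 / w * S + 16 / w ^ 2 * S * S ≤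
      16 / w * (1 + Real.log K) + 16 / w ^ 2 * (1 + Real.log K) * (1 + Real.log K) :=
        add_le_add h2 h3
    _ = _ := by
        field_simp

theorem sum_Lam {w : ℝ} {K : ℕ} (hK : 2 ≤ K) (hw : Real.log K ≤ w) :
    ∑ r ∈ Lam K, ‖kk w (fr r)‖ ^ 2 * (1 / (r.1 * r.2)) ≤ 281 := by
  have hlog : (2 / 3 : ℝ) ≤ Real.log K := by
    have h1 : Real.log 2 ≤ Real.log K := by
      apply Real.log_le_log (by norm_num)
      exact_mod_cast hK
    have := Real.log_two_gt_d9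
    linarith
  have hw0 : 0 < w := by linarith
  have hρ : (1 + Real.log K) / w ≤ 5 / 2 := by
    rw [div_le_iff₀ hw0]
    linarith
  have hρ0 : 0 ≤ (1 + Real.log K) / w := by
    apply div_nonneg _ hw0.le
    linarith
  have hQ := sum_Q hw0 K
  have hQ' : ∑ b ∈ Finset.Icc 1 K, ∑ a ∈ Finset.Icc 1 K, (if a < b then Q w a b else 0) ≤
      140 := by
    refine hQ.trans ?_
    nlinarith
  have h1 : ∀ r ∈ PK K, (if Nat.Coprime r.1 r.2 then ‖kk w (fr r)‖ ^ 2 * (1 / (r.1 * r.2))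
      else 0) ≤ (if r = (1, 1) then (1 : ℝ) else 0) + ((if r.1 < r.2 then Q w r.1 r.2 else 0) +
        (if r.2 < r.1 then Q w r.2 r.1 else 0)) := by
    rintro ⟨a, b⟩ hr
    rw [mem_PK] at hr
    obtain ⟨⟨ha, -⟩, ⟨hb, -⟩⟩ := hr
    have ha : 1 ≤ a := ha
    have hb : 1 ≤ b := hb
    have hq1 : (0 : ℝ) ≤ (if a < b then Q w a b else 0) := by
      split_ifs
      · exact Q_nonneg _ _
      · exact le_rfl
    have hq2 : (0 : ℝ) ≤ (if b < a then Q w b a else 0) := by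
      split_ifs
      · exact Q_nonneg _ _
      · exact le_rfl
    have hq0 : (0 : ℝ) ≤ (if (a, b) = (1, 1) then (1 : ℝ) else 0) := by
      split_ifs <;> norm_num
    show (if Nat.Coprime a b then ‖kk w (fr (a, b))‖ ^ 2 * (1 / ((a : ℝ) * b)) else 0) ≤
      (if (a, b) = (1, 1) then (1 : ℝ) else 0) + ((if a < b then Q w a b else 0) +
        (if b < a then Q w b a else 0))
    by_cases hc : Nat.Coprime a b
    · rw [if_pos hc]
      rcases lt_trichotomy a b with h | h | h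
      · have hl : Real.log a ≤ Real.log b := by
          apply Real.log_le_log (by exact_mod_cast ha)
          exact_mod_cast h.le
        have hμ : |fr (a, b)| = Real.log b - Real.log a := by
          show |Real.log a - Real.log b| = _
          rw [abs_sub_comm, abs_of_nonneg (by linarith)]
        have h2 := Q_le hw0 ha h hμ
        rw [if_pos h] at hq1 ⊢
        linarith
      · subst h
        have ha1 : a = 1 := (Nat.coprime_self a).1 hc
        subst ha1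
        have h3 := kk_le_one hw0 (fr (1, 1))
        have h4 := norm_nonneg (kk w (fr (1, 1)))
        have h5 : ‖kk w (fr (1, 1))‖ ^ 2 ≤ 1 := by nlinarith
        simp only [if_true, lt_irrefl, if_false]
        push_cast
        linarith
      · have hl : Real.log b ≤ Real.log a := by
          apply Real.log_le_log (by exact_mod_cast hb)
          exact_mod_cast h.le
        have hμ : |fr (a, b)| = Real.log a - Real.log b := by
          show |Real.log a - Real.log b| = _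
          rw [abs_of_nonneg (by linarith)]
        have h2 := Q_le hw0 hb h hμ
        rw [mul_comm (b : ℝ) a] at h2
        rw [if_pos h] at hq2 ⊢
        linarith
    · rw [if_neg hc]
      linarith
  have h2 : ∑ r ∈ Lam K, ‖kk w (fr r)‖ ^ 2 * (1 / (r.1 * r.2)) =
      ∑ r ∈ PK K, (if Nat.Coprime r.1 r.2 then ‖kk w (fr r)‖ ^ 2 * (1 / (r.1 * r.2)) else 0) := by
    unfold Lam
    rw [Finset.sum_filter]
  rw [h2]
  refine (Finset.sum_le_sum h1).trans ?_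
  rw [Finset.sum_add_distrib, Finset.sum_add_distrib]
  have s1 : ∑ r ∈ PK K, (if r = (1, 1) then (1 : ℝ) else 0) ≤ 1 := by
    rw [Finset.sum_ite_eq']
    split_ifs <;> norm_num
  have s2 : ∑ r ∈ PK K, (if r.1 < r.2 then Q w r.1 r.2 else 0) ≤ 140 := by
    unfold PK
    rw [Finset.sum_product_right]
    exact hQ'
  have s3 : ∑ r ∈ PK K, (if r.2 < r.1 then Q w r.2 r.1 else 0) ≤ 140 := by
    unfold PK
    rw [Finset.sum_product]
    exact hQ'
  linarith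

theorem card_Lam (K : ℕ) : (Lam K).card ≤ K ^ 2 := by
  unfold Lam
  refine (Finset.card_filter_le _ _).trans ?_
  unfold PK
  rw [Finset.card_product, Nat.card_Icc, Nat.add_sub_cancel, sq]

open Pool.Agent.H902R3.XI in
theorem taskM3 : TaskM3 := by
  classical
  refine ⟨843, by norm_num, ?_⟩
  intro c K hK hc D hD hb w H x₀ hw hH
  have hlog : (0 : ℝ) < Real.log K := by
    apply Real.log_pos
    exact_mod_cast (by omega : 1 < K)
  have hw0 : 0 < w := by linarith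
  have hK1 : (1 : ℝ) ≤ K := by exact_mod_cast (by omega : 1 ≤ K)
  have hK0 : (0 : ℝ) < K := by linarith
  have hK4 : (K : ℝ) ^ 4 ≤ H := by
    refine le_trans ?_ hH
    exact pow_le_pow_right₀ hK1 (by norm_num)
  have hH0 : 0 < H := lt_of_lt_of_le (by positivity) hK4
  have hcard : 2 * ((Lam K).card : ℝ) / (1 / (K : ℝ) ^ 2) ≤ 2 * H := by
    have h1 : ((Lam K).card : ℝ) ≤ (K : ℝ) ^ 2 := by exact_mod_cast card_Lam K
    rw [div_div_eq_mul_div, div_one]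
    calc 2 * ((Lam K).card : ℝ) * (K : ℝ) ^ 2 ≤ 2 * (K : ℝ) ^ 2 * (K : ℝ) ^ 2 := by gcongr
      _ = 2 * (K : ℝ) ^ 4 := by ring
      _ ≤ 2 * H := by linarith
  have hmv := mv (Lam K) (fun r => ((SS c K r : ℝ) : ℂ) * kk w (fr r)) fr (1 / (K : ℝ) ^ 2)
    (by positivity) (fun i hi j hj hij => fr_gap hi hj hij) x₀ H hH0
  have e1 : ∀ x, (Aw c K w x) ^ 2 =
      ‖∑ r ∈ Lam K, (((SS c K r : ℝ) : ℂ) * kk w (fr r)) * ex (fr r) x‖ ^ 2 := by
    intro x
    rw [← Aw_eq c K hw0 x, Complex.norm_real, Real.norm_eq_abs, sq_abs]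
  simp_rw [e1]
  have hsum : ∑ r ∈ Lam K, ‖((SS c K r : ℝ) : ℂ) * kk w (fr r)‖ ^ 2 ≤ D ^ 2 * 281 := by
    calc ∑ r ∈ Lam K, ‖((SS c K r : ℝ) : ℂ) * kk w (fr r)‖ ^ 2
        ≤ ∑ r ∈ Lam K, D ^ 2 * (‖kk w (fr r)‖ ^ 2 * (1 / (r.1 * r.2))) := by
          refine Finset.sum_le_sum fun r hr => ?_
          rw [norm_mul, mul_pow, Complex.norm_real, Real.norm_eq_abs, sq_abs]
          have h1 := SS_le c K hb r hr
          calc (SS c K r) ^ 2 * ‖kk w (fr r)‖ ^ 2 ≤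
              (D ^ 2 * (1 / (r.1 * r.2))) * ‖kk w (fr r)‖ ^ 2 := by gcongr
            _ = _ := by ring
      _ = D ^ 2 * ∑ r ∈ Lam K, ‖kk w (fr r)‖ ^ 2 * (1 / (r.1 * r.2)) := by
          rw [Finset.mul_sum]
      _ ≤ D ^ 2 * 281 := by
          have := sum_Lam hK hw
          gcongr
  calc H⁻¹ * ∫ x in x₀..(x₀ + H),
        ‖∑ r ∈ Lam K, (((SS c K r : ℝ) : ℂ) * kk w (fr r)) * ex (fr r) x‖ ^ 2
      ≤ H⁻¹ * ((H + 2 * (Lam K).card / (1 / (K : ℝ) ^ 2)) *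
          ∑ r ∈ Lam K, ‖((SS c K r : ℝ) : ℂ) * kk w (fr r)‖ ^ 2) := by gcongr
    _ ≤ H⁻¹ * ((H + 2 * H) * (D ^ 2 * 281)) := by
        have h0 : 0 ≤ ∑ r ∈ Lam K, ‖((SS c K r : ℝ) : ℂ) * kk w (fr r)‖ ^ 2 :=
          Finset.sum_nonneg fun _ _ => sq_nonneg _
        gcongr
    _ = 843 * D ^ 2 := by
        field_simp
        norm_num

end Pool.Agent.H2XI
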